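import Pool.Agent.X160.Fc.Main

/-!
# Graphs with few frustrated `k`-cycles

Full (positive) answer to Q1 of MP_9feecb_co, for all `k ≥ 3` and `t ≥ 0`.

Idea of the proof. Write `s(x, y) = -1` for an edge and `1` for a non-edge, `k = m + 3`.

1. If there are at most `K n ^ (k - 2)` frustrated cycles, then for some inner path
   `Q = (q_0, …, q_m)` at most `K` of the cycles `(y, z, q_0, …, q_m)` are frustrated. So
   `s(y, z) = c s(z, q_0) s(q_m, y)` for all but `K` pairs, and by the symmetry of `s` and
   since `n` is large, `s(y, z) = σ g(y) g(z)` off `Q` up to at most `K` pairs.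
2. After switching by `g`, with a majority choice on `Q`, the exceptional pairs form a graph `E` with
   `O(n)` edges, in which the sum of the squares of the degrees is at most about `n / 2` times
   the number of edges. A cycle is frustrated iff it has an odd number of steps in `E` (if
   `σ ^ k = -1`, nearly all cycles are frustrated, a contradiction).
3. The number of cycles with an odd number of steps in `E` is at least the first minus the second
   factorial moment of the number of steps; both moments are computed exactly in terms of the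
   numbers of edges, of pairs of adjacent and of pairs of disjoint edges of `E`. For the star this is
   an equality. Comparing the two, `E` has at most `t` edges.
-/

set_option autoImplicit false
open Finset

namespace Pool.Agent.Results.MP_9feecb_co.FewFrustratedCycles

/-- The number of frustrated `k`-cycles of `G`, counted as sequences `v_0, …, v_(k-1)` of distinct
vertices such that the number of the `i` (mod `k`) with `v_i v_(i+1)` an edge is odd
(`finRotate k i` is `i + 1` mod `k`). -/
noncomputable def frustrated {n : ℕ} (k : ℕ) (G : SimpleGraph (Fin n)) : ℕ :=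
  Set.ncard {v : Fin k → Fin n | Function.Injective v ∧
    Odd (Set.ncard {i : Fin k | G.Adj (v i) (v (finRotate k i))})}

/-- The star with centre `0` and leaves `1, …, s`, together with isolated vertices. -/
def star (n s : ℕ) : SimpleGraph (Fin n) where
  Adj x y := (x.val = 0 ∧ y.val ≠ 0 ∧ y.val ≤ s) ∨ (y.val = 0 ∧ x.val ≠ 0 ∧ x.val ≤ s)
  symm := ⟨fun _ _ h => h.symm⟩
  loopless := ⟨fun x h => by rcases h with ⟨h1, h2, _⟩ | ⟨h1, h2, _⟩ <;> exact h2 h1⟩

/-- `H` is the complete bipartite graph with parts `A` and its complement, for some `A`. -/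
def IsCompleteBipartite {n : ℕ} (H : SimpleGraph (Fin n)) : Prop :=
  ∃ A : Set (Fin n), ∀ x y, H.Adj x y ↔ (x ∈ A ∧ y ∉ A) ∨ (x ∉ A ∧ y ∈ A)

/-- The number of pairs in whose adjacency `G` and `H` differ. -/
noncomputable def flips {n : ℕ} (G H : SimpleGraph (Fin n)) : ℕ := (symmDiff G H).edgeSet.ncard

theorem frustrated_eq {n : ℕ} (k : ℕ) (G : SimpleGraph (Fin n)) [DecidableRel G.Adj] :
    frustrated k G = Pool.Agent.X160.Fc.F G k := by
  unfold frustrated Pool.Agent.X160.Fc.F
  rw [← Set.ncard_coe_finset, ← Set.ncard_image_of_injective _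
    (DFunLike.coe_injective : Function.Injective (fun v : Fin k ↪ Fin n => (v : Fin k → Fin n)))]
  congr 1
  ext v
  have hsteps : ∀ w : Fin k ↪ Fin n,
      Set.ncard {i : Fin k | G.Adj (w i) (w (finRotate k i))} =
        Pool.Agent.X160.Fc.steps G w := by
    intro w
    unfold Pool.Agent.X160.Fc.steps
    rw [← Set.ncard_coe_finset]
    congr 1
    ext i
    simp
  simp only [Set.mem_image, Finset.mem_coe, Finset.mem_filter, Finset.mem_univ, true_and]
  constructor
  · rintro ⟨hv, hodd⟩
    refine ⟨⟨v, hv⟩, ?_, rfl⟩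
    rw [← hsteps]
    exact hodd
  · rintro ⟨w, hodd, rfl⟩
    refine ⟨w.injective, ?_⟩
    rw [hsteps]
    exact hodd

open Classical in
theorem sum_dg {n : ℕ} (E : SimpleGraph (Fin n)) [DecidableRel E.Adj] :
    ∑ x, Pool.Agent.X160.Fc.dg E x = 2 * (E.edgeSet.ncard : ℤ) := by
  have h1 : ∀ x, Pool.Agent.X160.Fc.dg E x = (E.degree x : ℤ) := by
    intro x
    unfold Pool.Agent.X160.Fc.dg Pool.Agent.X160.Fc.A
    rw [← SimpleGraph.card_neighborFinset_eq_degree, SimpleGraph.neighborFinset_eq_filter,
      card_filter]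
    push_cast
    rfl
  rw [sum_congr rfl fun x _ => h1 x]
  have h2 := E.sum_degrees_eq_twice_card_edges
  have h3 : E.edgeSet.ncard = E.edgeFinset.card := by
    rw [← SimpleGraph.coe_edgeFinset, Set.ncard_coe_finset]
  rw [h3]
  exact_mod_cast h2

/-- **Theorem** (answer to Q1). For all `k ≥ 3` and `t` there is `n₀` such that for all `n ≥ n₀` and
every graph `G` on `n` vertices with fewer frustrated `k`-cycles than the star with `t + 1` edges,
`G` or its complement differs from a complete bipartite graph in at most `t` pairs. -/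
theorem result (k : ℕ) (hk : 3 ≤ k) (t : ℕ) : ∃ n₀ : ℕ, ∀ n, n₀ ≤ n →
    ∀ G : SimpleGraph (Fin n), frustrated k G < frustrated k (star n (t + 1)) →
      ∃ H : SimpleGraph (Fin n), IsCompleteBipartite H ∧ (flips G H ≤ t ∨ flips Gᶜ H ≤ t) := by
  classical
  obtain ⟨m, rfl⟩ : ∃ m, k = m + 3 := ⟨k - 3, by omega⟩
  obtain ⟨n₀, h⟩ := Pool.Agent.X160.Fc.main m t
  refine ⟨n₀, fun n hn G hlt => ?_⟩
  have e1 := frustrated_eq (m + 3) G
  have e2 : frustrated (m + 3) (star n (t + 1)) =
      Pool.Agent.X160.Fc.F (Pool.Agent.X160.Fc.star n (t + 1)) (m + 3) :=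
    frustrated_eq (m + 3) (Pool.Agent.X160.Fc.star n (t + 1))
  rw [e1, e2] at hlt
  obtain ⟨σ, g, hσ, hg, hlow⟩ := h n hn G hlt
  rw [sum_dg] at hlow
  have hcard : (Pool.Agent.X160.Fc.dif G σ g).edgeSet.ncard ≤ t := by
    have : ((Pool.Agent.X160.Fc.dif G σ g).edgeSet.ncard : ℤ) < t + 1 := by linarith
    exact_mod_cast Int.lt_add_one_iff.1 this
  let H : SimpleGraph (Fin n) :=
    { Adj := fun x y => (g x = -1 ∧ g y ≠ -1) ∨ (g x ≠ -1 ∧ g y = -1)
      symm := ⟨fun x y h => by tauto⟩
      loopless := ⟨fun x h => by tauto⟩ }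
  have hHadj : ∀ x y, H.Adj x y ↔ (g x = -1 ∧ g y ≠ -1) ∨ (g x ≠ -1 ∧ g y = -1) :=
    fun _ _ => Iff.rfl
  refine ⟨H, ⟨{x | g x = -1}, fun x y => hHadj x y⟩, ?_⟩
  have hadj : ∀ x y, (Pool.Agent.X160.Fc.dif G σ g).Adj x y ↔
      x ≠ y ∧ Pool.Agent.X160.Fc.sgn G x y ≠ σ * g x * g y := fun _ _ => Iff.rfl
  rcases hσ with hσ | hσ
  · left
    have hEq : symmDiff G H = Pool.Agent.X160.Fc.dif G σ g := by
      ext x y
      rw [hadj, symmDiff_def, SimpleGraph.sup_adj, SimpleGraph.sdiff_adj, SimpleGraph.sdiff_adj,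
        hHadj, hσ]
      rcases eq_or_ne x y with rfl | hxy
      · simp
      · unfold Pool.Agent.X160.Fc.sgn
        by_cases h1 : G.Adj x y <;> rcases hg x with h2 | h2 <;> rcases hg y with h3 | h3 <;>
          simp [h1, h2, h3, hxy]
    unfold flips
    rw [hEq]
    exact hcard
  · right
    have hEq : symmDiff Gᶜ H = Pool.Agent.X160.Fc.dif G σ g := by
      ext x y
      rw [hadj, symmDiff_def, SimpleGraph.sup_adj, SimpleGraph.sdiff_adj, SimpleGraph.sdiff_adj,
        hHadj, hσ, SimpleGraph.compl_adj]
      rcases eq_or_ne x y with rfl | hxy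
      · simp
      · unfold Pool.Agent.X160.Fc.sgn
        by_cases h1 : G.Adj x y <;> rcases hg x with h2 | h2 <;> rcases hg y with h3 | h3 <;>
          simp [h1, h2, h3, hxy]
    unfold flips
    rw [hEq]
    exact hcard

end Pool.Agent.Results.MP_9feecb_co.FewFrustratedCycles
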